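import Pool.Agent.D0H72.AN.Fin
import Pool.Agent.D0H72.AN.Win
import Pool.Agent.D0H5.PG.Grid
import Pool.Agent.Q278.KT.Fin

set_option autoImplicit false

namespace Pool.Agent.Results.MP_3998cf_nt.GenericSequences

open Filter Topology MeasureTheory

/-- `d_n = √p_{n+1} - √p_n`; the primes are numbered from `0` as in `S16599`. -/
noncomputable def D (n : ℕ) : ℝ :=
  Real.sqrt ((Nat.nth Nat.Prime (n + 1) : ℕ) : ℝ) - Real.sqrt ((Nat.nth Nat.Prime n : ℕ) : ℝ)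

open scoped Classical in
/-- The metric statements for positions `pos n` (`n` or `p_n`) and a pair of exponents `(e, δ)`; `μH[σ]` is
the `σ`-dimensional Hausdorff measure on the line (Lebesgue measure for `σ = 1`).
* linear families: for all `u_m ≥ 1`, `|w_m| ≤ K u_m` with `∑ u_m ^ (e - σ(1 - κ)) < ∞`, for all `α > 0`
  outside a set of `σ`-measure `0` and all large `m`, `d_n ≤ (n + 1)^(-δ)` for ALL `n` with
  `|pos n - (α u_m + w_m)| ≤ u_m ^ κ`;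
* powers: the same for `α ^ (g_m)`, `α > 1`, if `g_m ≥ 1`, `∑ exp (-t g_m) < ∞` for all `t > 0` and
  `e < σ(1 - κ)`;
* Piatetski-Shapiro sequences: the same for `m ^ c`, for the `c` with `c (σ(1 - κ) - e) > 1`;
* for every injective sequence `s_k` with `pos (s_k) ≤ A (k + 1)^h` at most `C (K + 1)^(e h)` of the
  indices `k ≤ K` have `d_{s_k} > (s_k + 1)^(-δ)`. -/
def Metric (pos : ℕ → ℝ) (e δ : ℝ) : Prop :=
  (∀ (u w : ℕ → ℝ) (K σ κ : ℝ), (∀ m, 1 ≤ u m) → (∀ m, |w m| ≤ K * u m) → 0 < σ → κ < 1 →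
    (Summable fun m => u m ^ (e - σ * (1 - κ))) →
    ∃ E : Set ℝ, μH[σ] E = 0 ∧ ∀ α : ℝ, 0 < α → α ∉ E → ∀ᶠ m in atTop, ∀ n : ℕ,
      |pos n - (α * u m + w m)| ≤ u m ^ κ → D n ≤ ((n : ℝ) + 1) ^ (-δ)) ∧
  (∀ (g : ℕ → ℝ) (σ κ : ℝ), (∀ m, 1 ≤ g m) →
    (∀ t : ℝ, 0 < t → Summable fun m => Real.exp (-(t * g m))) → 0 < σ → 0 ≤ κ → κ < 1 →
    e < σ * (1 - κ) →
    ∃ E : Set ℝ, μH[σ] E = 0 ∧ ∀ α : ℝ, 1 < α → α ∉ E → ∀ᶠ m in atTop, ∀ n : ℕ,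
      |pos n - α ^ g m| ≤ (α ^ g m) ^ κ → D n ≤ ((n : ℝ) + 1) ^ (-δ)) ∧
  (∀ σ κ : ℝ, 0 < σ → 0 ≤ κ → κ < 1 →
    ∃ E : Set ℝ, μH[σ] E = 0 ∧ ∀ c : ℝ, 0 < c → 1 < c * (σ * (1 - κ) - e) → c ∉ E →
      ∀ᶠ m : ℕ in atTop, ∀ n : ℕ, |pos n - (m : ℝ) ^ c| ≤ ((m : ℝ) ^ c) ^ κ →
        D n ≤ ((n : ℝ) + 1) ^ (-δ)) ∧
  (∀ A h : ℝ, 1 ≤ A → 0 ≤ h → ∃ C : ℝ, ∀ s : ℕ → ℕ, Function.Injective s →
    (∀ k, pos (s k) ≤ A * ((k : ℝ) + 1) ^ h) → ∀ K : ℕ,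
    (((Finset.range (K + 1)).filter (fun k => ((s k : ℝ) + 1) ^ (-δ) < D (s k))).card : ℝ) ≤
      C * ((K : ℝ) + 1) ^ (e * h))

/-- the number of the primes in `(x, x + h]` -/
noncomputable def primesIn (x h : ℝ) : ℕ := ((Finset.Ioc ⌊x⌋₊ ⌊x + h⌋₊).filter Nat.Prime).card

/-- all intervals `(x, x + x ^ θ]`, `x ≥ x₀`, `|x - y| ≤ w`, contain at least `c x ^ θ / log x` primes -/
def Full (c θ x₀ y w : ℝ) : Prop :=
  ∀ x : ℝ, x₀ ≤ x → |x - y| ≤ w → c * x ^ θ / Real.log x ≤ (primesIn x (x ^ θ) : ℝ)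

/-- The first three statements of `Metric` for intervals in place of gaps: for `θ ≤ κ < 1`, outside a set of
`σ`-dimensional Hausdorff measure `0`, for all large `m` ALL intervals `(x, x + x ^ θ]` with `x ≥ x₀` in the
window of radius `u_m ^ κ` around `α u_m + w_m` (of radius `y ^ κ` around `y = α ^ (g_m)` or `y = m ^ a`)
contain at least `c x ^ θ / log x` primes. -/
def Windows (c θ e x₀ : ℝ) : Prop :=
  (∀ (u w : ℕ → ℝ) (K σ κ : ℝ), (∀ m, 1 ≤ u m) → (∀ m, |w m| ≤ K * u m) → 0 < σ → θ ≤ κ → κ < 1 →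
    (Summable fun m => u m ^ (e - σ * (1 - κ))) →
    ∃ E : Set ℝ, μH[σ] E = 0 ∧ ∀ α : ℝ, 0 < α → α ∉ E → ∀ᶠ m in atTop,
      Full c θ x₀ (α * u m + w m) (u m ^ κ)) ∧
  (∀ (g : ℕ → ℝ) (σ κ : ℝ), (∀ m, 1 ≤ g m) →
    (∀ t : ℝ, 0 < t → Summable fun m => Real.exp (-(t * g m))) → 0 < σ → θ ≤ κ → κ < 1 →
    e < σ * (1 - κ) →
    ∃ E : Set ℝ, μH[σ] E = 0 ∧ ∀ α : ℝ, 1 < α → α ∉ E → ∀ᶠ m in atTop,
      Full c θ x₀ (α ^ g m) ((α ^ g m) ^ κ)) ∧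
  (∀ σ κ : ℝ, 0 < σ → θ ≤ κ → κ < 1 →
    ∃ E : Set ℝ, μH[σ] E = 0 ∧ ∀ a : ℝ, 0 < a → 1 < a * (σ * (1 - κ) - e) → a ∉ E →
      ∀ᶠ m : ℕ in atTop, Full c θ x₀ ((m : ℝ) ^ a) (((m : ℝ) ^ a) ^ κ))

/-- There is `η > 0` such that the metric statements hold, for the indices `n` and for the primes `p_n`,
with the pairs of exponents `(0.306, η)` and `(13/16, 5/16 + η)`; for almost every `α > 0` the limit in
Q1 is `0` along `n = ⌊α Q(m)⌋`, for all integer polynomials `Q` of degree at least two with positive leading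
coefficient at once; and the statements for intervals hold with `θ = 1/2 - η'` and `e = 0.306`, and with
`θ = 3/16 - η'` and `e = 13/16`, for some `η' > 0` and `c > 0`. -/
theorem result : (∃ η : ℝ, 0 < η ∧
    (Metric (fun n : ℕ => (n : ℝ)) 0.306 η ∧ Metric (fun n : ℕ => (n : ℝ)) (13 / 16) (5 / 16 + η)) ∧
    (Metric (fun n : ℕ => ((Nat.nth Nat.Prime n : ℕ) : ℝ)) 0.306 η ∧
      Metric (fun n : ℕ => ((Nat.nth Nat.Prime n : ℕ) : ℝ)) (13 / 16) (5 / 16 + η)) ∧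
    ∃ E : Set ℝ, volume E = 0 ∧ ∀ α : ℝ, 0 < α → α ∉ E → ∀ Q : Polynomial ℤ, 2 ≤ Q.natDegree →
      0 < Q.leadingCoeff →
      Tendsto (fun m : ℕ => D ⌊α * ((Q.eval (m : ℤ) : ℤ) : ℝ)⌋₊) atTop (𝓝 0)) ∧
    (∃ c η x₀ : ℝ, 0 < c ∧ 0 < η ∧ η < 1 / 2 ∧ Windows c (1 / 2 - η) 0.306 x₀) ∧
    ∃ c η x₀ : ℝ, 0 < c ∧ 0 < η ∧ η < 3 / 16 ∧ Windows c (3 / 16 - η) (13 / 16) x₀ := by
  refine ⟨Pool.Agent.D0H72.AN.fin Pool.Agent.Q278.KT.mainp_half Pool.Agent.Q278.KT.mainp_1316, ?_, ?_⟩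
  · obtain ⟨c, η, x₀, S, h⟩ := Pool.Agent.D0H5.PG.t_GRID (1 / 2) 0.306 (by norm_num) (by norm_num)
      (by norm_num) Pool.Agent.Q278.KT.mainp_half
    have h1 := Pool.Agent.D0H72.AN.windows h
    rw [show (1 : ℝ) - 1 / 2 - η = 1 / 2 - η by ring] at h1
    exact ⟨c, η, x₀, h.c0, h.η0, by linarith [h.η1, h.η0], h1⟩
  · obtain ⟨c, η, x₀, S, h⟩ := Pool.Agent.D0H5.PG.t_GRID (13 / 16) (13 / 16) (by norm_num) (by norm_num)
      (by norm_num) Pool.Agent.Q278.KT.mainp_1316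
    have h1 := Pool.Agent.D0H72.AN.windows h
    rw [show (1 : ℝ) - 13 / 16 - η = 3 / 16 - η by ring] at h1
    exact ⟨c, η, x₀, h.c0, h.η0, by linarith [h.η1, h.η0], h1⟩

end Pool.Agent.Results.MP_3998cf_nt.GenericSequences
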