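import Pool.Agent.D0H68.SQ.Pw2

/-!
# The differences of square roots in ALL random models of the primes: the pathwise laws and the exact criterion

The question is whether `√p_(k+1) - √p_k → 0` for the primes `p_1 < p_2 < …`.  We study it for random sets of integers.

**All random sets (no independence).**  Let `S 0, S 1, …` be any events adapted to a filtration `ℱ`, choose the
integers `n` with `S n`, and let `s_0 < s_1 < …` be the chosen integers.  Let `P_m` be the conditional probability of
`S m` given `ℱ (m - 1)`.

* (1) The window law.  Let `Q_δ(x)` be the product of the `1 - P_m`, `x < m ≤ (√x + δ) ^ 2`.  Almost surely, for all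
  `δ > 0`: if `Q_δ(x) ≤ x ^ (-ρ)` for large `x` for some `ρ > 1/2`, then `limsup (√s_(k+1) - √s_k) ≤ δ`, and if
  `Q_δ(x) ≥ x ^ (-ρ)` for large `x` for some `ρ < 1/2`, then `limsup (√s_(k+1) - √s_k) ≥ δ` (if infinitely many
  integers are chosen).  So the statement of the question holds almost surely on the event that the first condition
  holds for all `δ > 0`, and it fails almost surely on the event that the second one holds for some `δ > 0`.  There is
  no condition on the model.
* (2) In particular, if `c_m` is `P_m √m / log m`, then almost surely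
  `1 / (4 limsup c_m) ≤ limsup (√s_(k+1) - √s_k) ≤ 1 / (4 liminf c_m)`.

**Independent models**, with ARBITRARY probabilities `p_n = P(E n)`.  (The primes themselves are the case of the
probabilities `0, 1`; thinned primes, primes with random integers added, and all sieved independent models are others.)

* (3) Zero-one law with an exact criterion: the statement of the question holds almost surely if for every `δ > 0` the
  product of `1 - p_n` over `(δ k) ^ 2 < n ≤ (δ (k + 1)) ^ 2` is summable over `k`, and it fails almost surely otherwise.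
  The exact law, for all probabilities with divergent sum: almost surely the limit superior of the differences of
  the square roots of consecutive chosen integers is the infimum of the `δ > 0` such that for every `η > 0` the product
  of `1 - p_n` over `(η k) ^ 2 < n ≤ (η k + δ) ^ 2` is summable over `k`.  If `p_n` does not increase quickly
  (for instance nonincreasing, or regularly varying), then it is `1 / (4 liminf (p_n √n / log n))`, and the statement
  of the question holds almost surely if and only if `p_n √n / log n → ∞`.
* (4) Random subsets of a set `A`, for instance of the primes: choose the elements of `A` independently with the same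
  probability `t`, `0 < t < 1`.  The statement of the question holds almost surely if the series
  `∑ 2 ^ (-#(A ∩ ((δ k) ^ 2, (δ (k + 1)) ^ 2]))` converges for all `δ > 0`, and it fails almost surely otherwise.  The
  criterion does not depend on `t`, and it implies the statement for `A`.

Proof.  For (1): the product of the `1 / (1 - P_m)` over the integers of a window which were not chosen is a
(super)martingale, which bounds the probability that a window is empty while its product is small; for the converse the
events are cut where the product in the window becomes too small, the martingale gives a lower bound for the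
conditional probability of an empty window, and Lévy's form of the Borel-Cantelli lemma is applied to the windows.  For (2) the same with events cut
(enlarged) where the conditional probability is above (below) `c log m / √m`.  For (3) and (4) the Borel-Cantelli
lemmas for windows and sliding windows, long runs of windows after an integer `n` with small `p_n √n / log n`, and a
refinement argument (a window is a union of `m` windows of the width `δ / m`, of which all must be empty).
-/

set_option autoImplicit false

open MeasureTheory ProbabilityTheory Filter Finset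
open scoped Topology ENNReal

namespace Pool.Agent.Results.MP_3998cf_nt.IndependentModels

open Pool.Agent.D0H68.SQ

/-- the series `∑ 2 ^ (-#(A ∩ W δ k))` converges for all `δ > 0` -/
def Rob (A : Set ℕ) : Prop :=
  ∀ δ : ℝ, 0 < δ → Summable (fun k => ((1 : ℝ) / 2) ^ (((W δ k : Finset ℕ) : Set ℕ) ∩ A).ncard)

theorem rob_iff (A : Set ℕ) {t : ℝ} (ht : 0 < t) (ht1 : t < 1) : Crit (thin A t) ↔ Rob A := by
  have h1 : Rob A ↔ Crit (thin A (1 / 2)) := by
    rw [crit_thin_iff]
    unfold Rob
    norm_num
  rw [h1]
  exact ⟨crit_thin_mono A ht ht1 (by norm_num) (by norm_num), crit_thin_mono A (by norm_num) (by norm_num) ht ht1.le⟩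

/-- **The differences of square roots in all random models.**  Here `lsup q` is the limit superior of
`√s_(k+1) - √s_k` for the elements `s_0 < s_1 < …` of the set `q`, `DQ q` says that the set is infinite and that these
differences tend to `0`, `cn` is the normalised conditional probability of the choice of `n + 1`, and `Qw` the product
of the conditional probabilities of not choosing `m` over the window `x < m ≤ (√x + δ) ^ 2`.
First part: any adapted events.  (1) The window law, and what it says on the question. (2) The pointwise form.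
Second part: independent events `E n`. (3) The zero-one law with the criterion `Crit`. If the sum of the
probabilities diverges, then almost surely infinitely many integers are chosen and the limit superior is the infimum
of `good`. If the probabilities are `Tame`, then `Crit` is `P(E n) √n / log n → ∞`, and the limit superior is
`1 / (4 λ)`; nonincreasing sequences are `Tame`. (4) Random subsets of a set `A` of density `t`: the criterion is
`Rob A`, for all `0 < t < 1`; `Rob A` implies the statement for `A`. -/
theorem result :
    -- all random sets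
    (∀ {Ω : Type} [mΩ : MeasurableSpace Ω] (μ : Measure Ω) [IsProbabilityMeasure μ] (ℱ : Filtration ℕ mΩ)
      (S : ℕ → Set Ω), (∀ n, MeasurableSet[ℱ n] (S n)) →
      -- (1)
      (∀ᵐ ω ∂μ, ∀ δ : ℝ, 0 < δ →
        ((∃ ρ : ℝ, 1 / 2 < ρ ∧ ∀ᶠ x : ℕ in atTop, Qw μ ℱ S δ x ω ≤ (x : ℝ) ^ (-ρ)) →
          {n | ω ∈ S n}.Infinite ∧ lsup (fun n => ω ∈ S n) ≤ ENNReal.ofReal δ) ∧
        ((∃ ρ : ℝ, ρ < 1 / 2 ∧ ∀ᶠ x : ℕ in atTop, (x : ℝ) ^ (-ρ) ≤ Qw μ ℱ S δ x ω) → {n | ω ∈ S n}.Infinite →
          ENNReal.ofReal δ ≤ lsup (fun n => ω ∈ S n))) ∧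
      (∀ᵐ ω ∂μ,
        ((∀ δ : ℝ, 0 < δ → ∃ ρ : ℝ, 1 / 2 < ρ ∧ ∀ᶠ x : ℕ in atTop, Qw μ ℱ S δ x ω ≤ (x : ℝ) ^ (-ρ)) →
          DQ (fun n => ω ∈ S n)) ∧
        ((∃ δ : ℝ, 0 < δ ∧ ∃ ρ : ℝ, ρ < 1 / 2 ∧ ∀ᶠ x : ℕ in atTop, (x : ℝ) ^ (-ρ) ≤ Qw μ ℱ S δ x ω) →
          ¬ DQ (fun n => ω ∈ S n))) ∧
      -- (2)
      (∀ᵐ ω ∂μ,
        ({n | ω ∈ S n}.Infinite →
          (4 * limsup (fun n => cn μ ℱ S n ω) atTop)⁻¹ ≤ lsup (fun n => ω ∈ S n) ∧
          lsup (fun n => ω ∈ S n) ≤ (4 * liminf (fun n => cn μ ℱ S n ω) atTop)⁻¹) ∧
        (0 < liminf (fun n => cn μ ℱ S n ω) atTop → {n | ω ∈ S n}.Infinite) ∧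
        (liminf (fun n => cn μ ℱ S n ω) atTop = ∞ → DQ (fun n => ω ∈ S n)) ∧
        (limsup (fun n => cn μ ℱ S n ω) atTop < ∞ → ¬ DQ (fun n => ω ∈ S n)))) ∧
    -- independent events
    (∀ {Ω : Type} [MeasurableSpace Ω] (μ : Measure Ω) [IsProbabilityMeasure μ] (E : ℕ → Set Ω),
      (∀ n, MeasurableSet (E n)) → iIndepSet E μ →
      -- (3)
      (Crit (fun n => μ.real (E n)) → ∀ᵐ ω ∂μ, DQ (fun n => ω ∈ E n)) ∧
      (¬ Crit (fun n => μ.real (E n)) → ∀ᵐ ω ∂μ, ¬ DQ (fun n => ω ∈ E n)) ∧
      (¬ Summable (fun n => μ.real (E n)) → ∀ᵐ ω ∂μ, {n | ω ∈ E n}.Infinite ∧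
        lsup (fun n => ω ∈ E n) = sInf (ENNReal.ofReal '' good (fun n => μ.real (E n)))) ∧
      (Tame (fun n => μ.real (E n)) →
        (Crit (fun n => μ.real (E n)) ↔
          Tendsto (fun n : ℕ => μ.real (E n) * √n / Real.log n) atTop atTop) ∧
        (¬ Summable (fun n => μ.real (E n)) → ∀ᵐ ω ∂μ, {n | ω ∈ E n}.Infinite ∧
          lsup (fun n => ω ∈ E n) =
            (4 * liminf (fun n : ℕ => ENNReal.ofReal (μ.real (E n) * √n / Real.log n)) atTop)⁻¹)) ∧
      -- (4)
      (∀ (A : Set ℕ) (t : ℝ), 0 < t → t < 1 → (∀ n ∈ A, μ.real (E n) = t) → (∀ n ∉ A, μ.real (E n) = 0) →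
        (Rob A → ∀ᵐ ω ∂μ, DQ (fun n => ω ∈ E n)) ∧ (¬ Rob A → ∀ᵐ ω ∂μ, ¬ DQ (fun n => ω ∈ E n)))) ∧
    (∀ p : ℕ → ℝ, (∀ n, 0 ≤ p n) → Antitone p → Tame p) ∧
    (∀ A : Set ℕ, Rob A → DQ (fun n => n ∈ A)) := by
  refine ⟨?_, ?_, fun p h0 h => tame_of_antitone h0 h, fun A h => ?_⟩
  · intro Ω _ μ _ ℱ S hS
    refine ⟨product_law hS, ?_, ?_⟩
    · filter_upwards [product_law (μ := μ) hS] with ω hω
      constructor
      · intro h
        have hinf := ((hω 1 one_pos).1 (h 1 one_pos)).1
        apply DQ_of_lsup_zero hinf
        by_contra hne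
        obtain ⟨r, hr0, hr1, hr2⟩ := ENNReal.lt_iff_exists_real_btwn.1 (pos_iff_ne_zero.2 hne)
        have hr : 0 < r := by
          rcases hr0.eq_or_lt with h3 | h3
          · rw [← h3] at hr1
            simp at hr1
          · exact h3
        exact absurd ((hω r hr).1 (h r hr)).2 (not_le.2 hr2)
      · rintro ⟨δ, hδ, h⟩ hD
        have h1 := (hω δ hδ).2 h hD.1
        rw [lsup_zero_of_DQ hD] at h1
        have h2 := ENNReal.ofReal_pos.2 hδ
        exact absurd h1 (not_le.2 h2)
    · filter_upwards [pathwise (μ := μ) hS, pathwise_DQ (μ := μ) hS] with ω h1 h2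
      exact ⟨h1.2, h1.1, h2.1, h2.2⟩
  · intro Ω _ μ _ E hE hind
    refine ⟨ae_DQ hE hind, ae_not_DQ hE hind, fun hs => ae_law_all hE hind hs, fun ht => ⟨crit_iff_of_tame
      (fun n => measureReal_nonneg) (fun n => real_le_one (μ := μ) (E := E) n) ht,
      fun hs => ae_law hE hind ht hs⟩, ?_⟩
    intro A t ht ht1 h1 h2
    have he : (fun n => μ.real (E n)) = thin A t := by
      classical
      funext n
      unfold thin
      split_ifs with hn
      · exact h1 n hn
      · exact h2 n hn
    rw [← rob_iff A ht ht1, ← he]
    exact ⟨ae_DQ hE hind, ae_not_DQ hE hind⟩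
  · rw [← crit_one_iff]
    rw [← rob_iff A (by norm_num : (0 : ℝ) < 1 / 2) (by norm_num)] at h
    exact crit_thin_mono A (by norm_num) (by norm_num) one_pos le_rfl h

end Pool.Agent.Results.MP_3998cf_nt.IndependentModels
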