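import Pool.Agent.Q278.KT.Fin
import Pool.Agent.D0H45.PG.Lin2
import Pool.Agent.D0H5.PG.Grid
import Pool.Agent.D0H30.PG.Nth
import Pool.Agent.D0H30.PG.Cheb
import Pool.Agent.D0H70.PG.Sum1
import Pool.Agent.D0H49.PG.Sum2

/-!
# Primes near the values of compositions of multiplicative functions, and sums of two square roots of primes (MP_3998cf_nt)

Let `F_1, ..., F_k` be arbitrary compositions of functions of the class `LM` (positive multiplicative functions of at most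
polynomial growth, at most linear and injective at the large primes), for example `F m = φ (σ (φ m))`, and let
`α_1, ..., α_k` be real numbers, not all zero. For all but `N ^ k / (log N) ^ U` of the tuples `m ∈ [1, N] ^ k`:

(1) for ALL consecutive primes `p < p'` with `|p ^ (1/b) - ∑ α_i F_i(m_i)| ≤ (∑ F_i(m_i)) ^ κ`, where `b ≥ 1`, `κ + 0.306 b ≤ 1`,
the difference `√p' - √p` is at most `p ^ (-η)` (the question is whether it tends to `0` for all primes), and all intervals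
`(x, x + x ^ (1/2 - η)]` with `x ^ (1/b)` in this window contain at least `c x ^ (1/2 - η) / log x` primes. For `b = 1` the primes are near
the linear form and `κ ≤ 0.694`; for `b = 2` their square roots are near it and `κ ≤ 0.388`: the scale of the question; for
`b = 3` their cubic roots (`κ ≤ 0.082`);

(2) if `κ + 13 b / 16 ≤ 1` the same with `√p' - √p ≤ p ^ (-5/16 - η)` and the intervals `(x, x + x ^ (3/16 - η)]`.

The values of compositions have very large multiplicities, and the linear form may be small compared with its terms, for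
example `φ(m_1) - σ(m_2)`.

(3) Every large real `τ` is approximated by sums of two square roots of primes: `0 < √p + √q - τ ≤ τ ^ (-5/8 - η)`, and
`0 < √p + √q - τ ≤ τ ^ (-η)` with `q ≤ τ ^ 1.23`. (The question is equivalent to `√p - τ → 0` for the first prime `p ≥ τ ^ 2`.)

The inputs are the theorems `mainp_half`, `mainp_1316` of the starting library on the number of the short intervals with few
primes, and the tool of helper71 for compositions (`Pool.Agent.D0H71.CM`). Statements and proofs of the steps: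
`Pool/Agent/D0H45/PG/Stm.lean`; (3) is an idea of helper17.
-/

set_option autoImplicit false

namespace Pool.Agent.Results.MP_3998cf_nt.NearCompositions

open Finset
open Pool.Agent.N733.TG (LM lm_totient lm_sigma)
open Pool.Agent.D0H71.CM (Comp)

/-- the number of the primes in `(x, x + h]` -/
noncomputable def primesIn (x h : ℝ) : ℕ := ((Ioc ⌊x⌋₊ ⌊x + h⌋₊).filter Nat.Prime).card

/-- Every interval `(x, x + x ^ θ]` with `|x ^ (1 / b) - y| ≤ w`, `x ≥ 1`, contains at least `c x ^ θ / log x` primes, and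
`√p' - √p ≤ p ^ (θ - 1 / 2)` for all consecutive primes `p < p'` with `|p ^ (1 / b) - y| ≤ w`. -/
def Regular (b c θ y w : ℝ) : Prop :=
  (∀ x : ℝ, 1 ≤ x → |x ^ (1 / b) - y| ≤ w → c * x ^ θ / Real.log x ≤ (primesIn x (x ^ θ) : ℝ)) ∧
  ∀ n : ℕ, |(Nat.nth Nat.Prime n : ℝ) ^ (1 / b) - y| ≤ w →
    √(Nat.nth Nat.Prime (n + 1) : ℝ) - √(Nat.nth Nat.Prime n : ℝ) ≤ (Nat.nth Nat.Prime n : ℝ) ^ (θ - 1 / 2)

/-- For all real linear forms in the values of compositions of functions of the class `LM` and all large `N`, for all but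
`N ^ k / (log N) ^ U` of the tuples `m` in `[1, N] ^ k` the window of radius `(∑ F_i(m_i)) ^ κ` around `∑ α_i F_i(m_i)` is
regular with exponent `θ` on the scale of the numbers `p ^ (1 / b)`, for all `b ≥ 1`, `κ ≥ 0` with `κ + b e ≤ 1`. -/
def NearForms (c θ e : ℝ) : Prop :=
  ∀ (k : ℕ) (F : Fin k → ℕ → ℕ), (∀ i, Comp (F i)) → ∀ α : Fin k → ℝ, α ≠ 0 → ∀ b κ : ℝ, 1 ≤ b → 0 ≤ κ → κ + b * e ≤ 1 →
    ∀ U : ℕ,
    ∃ N₀ : ℕ, ∀ N : ℕ, N₀ ≤ N →
      ({m : Fin k → ℕ | (∀ i, 1 ≤ m i ∧ m i ≤ N) ∧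
        ¬ Regular b c θ (∑ i, α i * (F i (m i) : ℝ)) ((∑ i, (F i (m i) : ℝ)) ^ κ)}.ncard : ℝ) ≤ (N : ℝ) ^ k / Real.log N ^ U

open Pool.Agent.D0H45.PG in
lemma nearForms {lam e0 c η x₀ : ℝ} {S : Set ℝ} (h : Grid lam e0 c η x₀ S) (hle : e0 ≤ lam) :
    NearForms c (1 - lam - η) e0 := by
  intro k F hF α hα b κ hb hκ hκ1 U
  obtain ⟨N₀, hN₀⟩ := lin2 h hle hb hκ hκ1 hF hα U
  refine ⟨N₀, fun N hN => le_trans ?_ (hN₀ N hN)⟩
  refine Nat.cast_le.2 (Set.ncard_le_ncard ?_ ?_)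
  · rintro m ⟨h1, h2⟩
    refine ⟨h1, fun h3 => h2 ⟨h3, fun n hn => ?_⟩⟩
    refine Pool.Agent.D0H30.PG.t_NTH c (1 - lam - η) n h.c0 (h3 _ ?_ hn)
    exact_mod_cast (Nat.prime_nth_prime n).one_lt.le
  · apply (Set.Finite.pi' fun _ : Fin k => Set.finite_Icc 1 N).subset
    intro m hm i
    exact hm.1 i

open Pool.Agent.D0H45.PG in
/-- **Theorem.** (1) There are `c, η > 0` such that for all compositions `F_1, ..., F_k` of functions of the class `LM`, all
real `α ≠ 0`, all `b ≥ 1`, `κ ≥ 0` with `κ + 0.306 b ≤ 1`, all `U` and all large `N`, for all but `N ^ k / (log N) ^ U` of the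
`m ∈ [1, N] ^ k`, for all consecutive primes `p < p'` with `|p ^ (1/b) - ∑ α_i F_i(m_i)| ≤ (∑ F_i(m_i)) ^ κ` we have
`√p' - √p ≤ p ^ (-η)`, and all intervals `(x, x + x ^ (1/2 - η)]` with `x ^ (1/b)` in this window contain at least
`c x ^ (1/2 - η) / log x` primes; and all large
real `τ` satisfy `0 < √p + √q - τ ≤ τ ^ (-η)` with primes `p`, `q ≤ τ ^ 1.23`. (2) There are `c, η > 0` such that the same
holds if `κ + 13 b / 16 ≤ 1` with `√p' - √p ≤ p ^ (-5/16 - η)` and the intervals `(x, x + x ^ (3/16 - η)]`, and all large real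
`τ` satisfy `0 < √p + √q - τ ≤ τ ^ (-5/8 - η)` with primes `p`, `q`. (3) Euler's function and the sum of the divisors belong
to the class `LM`. -/
theorem result :
    (∃ c η : ℝ, 0 < c ∧ 0 < η ∧ η < 1 / 2 ∧ NearForms c (1 / 2 - η) 0.306 ∧
      ∃ τ₀ : ℝ, ∀ τ : ℝ, τ₀ ≤ τ → ∃ p q : ℕ, p.Prime ∧ q.Prime ∧ (q : ℝ) ≤ τ ^ (1.23 : ℝ) ∧
        0 < √(p : ℝ) + √(q : ℝ) - τ ∧ √(p : ℝ) + √(q : ℝ) - τ ≤ τ ^ (-η)) ∧
    (∃ c η : ℝ, 0 < c ∧ 0 < η ∧ η < 3 / 16 ∧ NearForms c (3 / 16 - η) (13 / 16) ∧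
      ∃ τ₀ : ℝ, ∀ τ : ℝ, τ₀ ≤ τ → ∃ p q : ℕ, p.Prime ∧ q.Prime ∧
        0 < √(p : ℝ) + √(q : ℝ) - τ ∧ √(p : ℝ) + √(q : ℝ) - τ ≤ τ ^ (-(5 / 8) - η)) ∧
    LM Nat.totient ∧ LM (fun m => ∑ d ∈ m.divisors, d) := by
  refine ⟨?_, ?_, lm_totient, lm_sigma⟩
  · obtain ⟨c, η, x₀, S, h⟩ := Pool.Agent.D0H5.PG.t_GRID (1 / 2) 0.306 (by norm_num) (by norm_num) (by norm_num)
      Pool.Agent.Q278.KT.mainp_half
    have hη := h.η0
    have hη1 := h.η1
    refine ⟨c, η, h.c0, hη, by linarith, ?_, ?_⟩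
    · have h1 := nearForms h (by norm_num)
      have e1 : (1 : ℝ) - 1 / 2 - η = 1 / 2 - η := by ring
      rwa [e1] at h1
    · obtain ⟨τ₀, hτ⟩ := Pool.Agent.D0H49.PG.t_SUM2 Pool.Agent.D0H30.PG.t_CHEB c η x₀ S h
      refine ⟨max τ₀ 1, fun τ h1 => ?_⟩
      obtain ⟨p, q, hp, hq, h2, h3, h4⟩ := hτ τ ((le_max_left _ _).trans h1)
      refine ⟨p, q, hp, hq, h2, h3, h4.trans ?_⟩
      exact Real.rpow_le_rpow_of_exponent_le ((le_max_right _ _).trans h1) (by linarith)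
  · obtain ⟨c, η, x₀, S, h⟩ := Pool.Agent.D0H5.PG.t_GRID (13 / 16) (13 / 16) (by norm_num) (by norm_num) (by norm_num)
      Pool.Agent.Q278.KT.mainp_1316
    have hη := h.η0
    have hη1 := h.η1
    refine ⟨c, η, h.c0, hη, by linarith, ?_, ?_⟩
    · have h1 := nearForms h le_rfl
      have e1 : (1 : ℝ) - 13 / 16 - η = 3 / 16 - η := by ring
      rwa [e1] at h1
    · obtain ⟨τ₀, hτ⟩ := Pool.Agent.D0H70.PG.t_SUM1 Pool.Agent.D0H30.PG.t_CHEB (13 / 16) (13 / 16) c η x₀ S h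
        (by norm_num) le_rfl
      refine ⟨max τ₀ 1, fun τ h1 => ?_⟩
      obtain ⟨p, q, hp, hq, h3, h4⟩ := hτ τ ((le_max_left _ _).trans h1)
      refine ⟨p, q, hp, hq, h3, h4.trans ?_⟩
      exact Real.rpow_le_rpow_of_exponent_le ((le_max_right _ _).trans h1) (by linarith)

end Pool.Agent.Results.MP_3998cf_nt.NearCompositions
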