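import Pool.Agent.D0H68.SD.Gap

/-!
# The differences of square roots in random models of the primes sieved up to `n ^ (1/4 - ε)`

The question is whether `√p_(k+1) - √p_k → 0` for the primes `p_1 < p_2 < …`. We answer it in sequential random
models of the primes with a growing sieve: the integers are decided one after the other, and only a lower bound is
assumed for the conditional probability, given the past, of choosing an integer `n + 1` without prime factors at
most `z(n + 1)`: it is at least `c ∏_{q ≤ z(n + 1)} (1 - 1/q)⁻¹ / log n` for large `n`, where `c > 0` may be random.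
No independence and no rate is assumed, nothing is assumed for the other integers, and `z` is ANY function with
`z(n) ≤ n ^ θ`.

* If `θ < 1/4`, the chosen integers `s_0 < s_1 < …` satisfy `√s_(k+1) - √s_k → 0` almost surely. For all `θ` and
  `η > 2 θ` we have `s_(k+1) - s_k ≤ s_k ^ η` for all large `k`.
* Almost surely ALL windows `(x, x + L]`, `L ≤ x`, whose expected number `E` of chosen integers is at least
  `(log x) ^ (1 + ε)` contain at least `κ E` of them, and `(1 + o(1)) E` if no other integers are chosen and the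
  conditional probabilities are asymptotic to `∏_{q ≤ z(n + 1)} (1 - 1/q)⁻¹ / log n`.
* `E ≥ κ L / (log x) ^ 2` if `z ≤ L ^ θ` in the window, `θ < 1/2`, and `E ≥ κ L / log x` if in addition
  `z ≥ L ^ θ'`, `θ' > 0`.

Proof. An exponential supermartingale bounds the probability that a window contains too few (or too many) chosen
integers in comparison with the sum of the conditional probabilities. The expected numbers are bounded below by the
linear sieve in ALL intervals (`Pool.Agent.D0H36.BW.det_lo`, helper36).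
-/

set_option autoImplicit false

open MeasureTheory Filter Finset
open scoped Topology

namespace Pool.Agent.Results.MP_3998cf_nt.SievedModels

open Pool.Agent.D0H68.SD

/-- **The differences of square roots in sieved random models.**  Let `S n`, `n = 0, 1, …`, be events adapted to a
filtration `ℱ` and `z : ℕ → ℕ`.  (1) Suppose that almost surely the conditional probability of `S (n + 1)` given
`ℱ n` is at least `c V(z(n + 1)) / log n` for some `c > 0` and all large `n` such that `n + 1` has no prime factor at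
most `z(n + 1)`.  If `z(n) ≤ n ^ θ` for large `n`, then almost surely infinitely many integers are chosen,
`s_(k+1) - s_k ≤ s_k ^ η` for large `k`, for every `η > 2 θ`, `η ≤ 1`, and if `θ < 1/4`, then
`√s_(k+1) - √s_k → 0`, where `s_0 < s_1 < …` are the chosen integers.  Moreover almost surely for some `κ > 0`, for
each `ε > 0`, for all large `x` all windows `(x, x + L]`, `L ≤ x`, with expected number `E ≥ (log x) ^ (1 + ε)`
contain at least `κ E` chosen integers.  (2) If only integers without prime factors at most `z(n)` are chosen and the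
conditional probabilities are asymptotic to `V(z(n + 1)) / log n`, then they contain between `(1 - ε) E` and
`(1 + ε) E` chosen integers.  (3), (4) Lower bounds for the expected numbers `E`, for all `z`. -/
theorem result {Ω : Type} [mΩ : MeasurableSpace Ω] (μ : Measure Ω) [IsProbabilityMeasure μ]
    (ℱ : Filtration ℕ mΩ) (S : ℕ → Set Ω) (hS : ∀ n, MeasurableSet[ℱ n] (S n)) (z : ℕ → ℕ) :
    ((∀ᵐ ω ∂μ, ∃ c : ℝ, 0 < c ∧ ∀ᶠ n : ℕ in atTop, Rough z (n + 1) →
        c * V (z (n + 1)) ≤ (μ[(S (n + 1)).indicator (fun _ => (1 : ℝ)) | ℱ n]) ω * Real.log n) →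
      (∀ θ : ℝ, 0 ≤ θ → (∀ᶠ n : ℕ in atTop, (z n : ℝ) ≤ (n : ℝ) ^ θ) →
        (∀ᵐ ω ∂μ, ∀ η : ℝ, 2 * θ < η → η ≤ 1 → {m | ω ∈ S m}.Infinite ∧ ∀ᶠ k : ℕ in atTop,
          ((Nat.nth (fun m => ω ∈ S m) (k + 1) : ℕ) : ℝ) - (Nat.nth (fun m => ω ∈ S m) k : ℕ) ≤
            ((Nat.nth (fun m => ω ∈ S m) k : ℕ) : ℝ) ^ η) ∧
        (θ < 1 / 4 → ∀ᵐ ω ∂μ, {m | ω ∈ S m}.Infinite ∧
          Tendsto (fun k : ℕ => √((Nat.nth (fun m => ω ∈ S m) (k + 1) : ℕ) : ℝ) -
            √((Nat.nth (fun m => ω ∈ S m) k : ℕ) : ℝ)) atTop (𝓝 0))) ∧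
      (∀ᵐ ω ∂μ, ∃ κ : ℝ, 0 < κ ∧ ∀ ε : ℝ, 0 < ε → ∀ᶠ x : ℕ in atTop, ∀ L : ℕ, L ≤ x →
        (Real.log x) ^ (1 + ε) ≤ expd z x L → κ * expd z x L ≤ cnt S ω x L)) ∧
    ((∀ n, ¬ Rough z n → S n = ∅) →
      (∀ᵐ ω ∂μ, Tendsto (fun n : ℕ => (μ[(S (n + 1)).indicator (fun _ => (1 : ℝ)) | ℱ n]) ω * Real.log n /
        V (z (n + 1))) (atTop ⊓ 𝓟 {n : ℕ | Rough z (n + 1)}) (𝓝 1)) →
      ∀ᵐ ω ∂μ, ∀ ε : ℝ, 0 < ε → ∀ᶠ x : ℕ in atTop, ∀ L : ℕ, L ≤ x →
        (Real.log x) ^ (1 + ε) ≤ expd z x L → |(cnt S ω x L : ℝ) - expd z x L| ≤ ε * expd z x L) ∧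
    (∀ θ : ℝ, 0 < θ → θ < 1 / 2 → ∃ κ : ℝ, 0 < κ ∧ ∃ L₀ : ℕ, ∀ L x : ℕ, L₀ ≤ L → L ≤ x → ∀ y : ℕ → ℕ,
      (∀ m ∈ Ioc x (x + L), (y m : ℝ) ≤ (L : ℝ) ^ θ) → κ * (L / Real.log x ^ 2) ≤ expd y x L) ∧
    (∀ θ θ' : ℝ, 0 < θ' → θ < 1 / 2 → ∃ κ : ℝ, 0 < κ ∧ ∃ L₀ : ℕ, ∀ L x : ℕ, L₀ ≤ L → L ≤ x → ∀ y : ℕ → ℕ,
      (∀ m ∈ Ioc x (x + L), (L : ℝ) ^ θ' ≤ y m ∧ (y m : ℝ) ≤ (L : ℝ) ^ θ) →
        κ * (L / Real.log x) ≤ expd y x L) := by
  refine ⟨fun h => ⟨fun θ h0 hz => ⟨gaps hS z h θ h0 hz, fun h1 => ?_⟩, low hS z h⟩, fun hr h => lln hS z hr h,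
    expd_ge, expd_ge2⟩
  filter_upwards [gaps hS z h θ h0 hz] with ω hω
  obtain ⟨h2, h3⟩ := hω (θ + 1 / 4) (by linarith) (by linarith)
  exact ⟨h2, nth_sqrt _ (θ + 1 / 4) (by linarith) h2 h3⟩

end Pool.Agent.Results.MP_3998cf_nt.SievedModels
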